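import Mathlib
import Pool.Agent.Helper42.Ent1
import Pool.Agent.Helper70.C4.Generic

/-!
# Project GR: no finite graph of large girth receives Borel homomorphisms from all
3-regular Borel forests. Definitions.
-/

open MeasureTheory Real Finset

namespace Pool.Agent.Helper23.GR

open Pool.Agent.Helper42.Ent Pool.Agent.Helper70.C4

/-! ### Nonbacktracking words -/

/-- nonbacktracking words over three letters -/
abbrev NB (w : List (Fin 3)) : Prop := w.IsChain (· ≠ ·)

open Classical in
/-- the finite set of nonbacktracking words of length `n` -/
noncomputable def W (n : ℕ) : Finset (List (Fin 3)) :=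
  (List.finite_length_eq (Fin 3) n).toFinset.filter NB

theorem mem_W {n : ℕ} {w : List (Fin 3)} : w ∈ W n ↔ w.length = n ∧ NB w := by
  classical
  simp [W]

/-- a word or its reverse -/
def sg (a : List (Fin 3)) (b : Bool) : List (Fin 3) := if b then a.reverse else a

/-- A separated family of words of length `m`: all signed words have different prefixes of
length `p ≤ m / 2`. -/
structure Sep {ι : Type} (p m : ℕ) (a : ι → List (Fin 3)) : Prop where
  pos : 0 < p
  le : 2 * p ≤ m
  mem : ∀ i, a i ∈ W m
  inj : Function.Injective (fun x : ι × Bool => (sg (a x.1) x.2).take p)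

/-- the relative word: `run T (rel u v) (run T u x) = run T v x` (common prefix cancelled) -/
def rel : List (Fin 3) → List (Fin 3) → List (Fin 3)
  | [], v => v
  | u, [] => u.reverse
  | i :: u, j :: v => if i = j then rel u v else (i :: u).reverse ++ (j :: v)

/-- leaves: the 24 nonbacktracking words of length 4 -/
abbrev Leaf : Type := {w : List (Fin 3) // w ∈ W 4}

/-! ### Mutual information -/

/-- mutual information -/
noncomputable def MI {E α β : Type*} [MeasurableSpace E] [Fintype α] [MeasurableSpace α]
    [Fintype β] [MeasurableSpace β] (P : Measure E) (X : E → α) (Y : E → β) : ℝ :=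
  ent P X + ent P Y - ent P (fun x => (X x, Y x))

/-! ### Systems -/

/-- Three measure preserving involutions with the forward star inequality for all separated
families. -/
structure Sys (Ω : Type) [MeasurableSpace Ω] where
  μ : Measure Ω
  prob : IsProbabilityMeasure μ
  T : Fin 3 → Ω → Ω
  mp : ∀ i, MeasurePreserving (T i) μ μ
  invol : ∀ i x, T i (T i x) = x
  fs : ∀ (ι α : Type) [Fintype ι] [DecidableEq ι] [Fintype α] [MeasurableSpace α] [MeasurableSingletonClass α]
    (p m : ℕ) (a : ι → List (Fin 3)), Sep p m a → ∀ ψ : Ω → α, Measurable ψ →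
    (Fintype.card ι : ℝ) * ent μ ψ ≤ ent μ (fun x => (ψ x, fun i => ψ (run T (a i) x)))

attribute [instance] Sys.prob

/-- `f` is a homomorphism to `H` with measurable colour classes -/
structure IsHom {Ω : Type} [MeasurableSpace Ω] (S : Sys Ω) {V : Type} (H : SimpleGraph V)
    (f : Ω → V) : Prop where
  meas : ∀ v, MeasurableSet (f ⁻¹' {v})
  adj : ∀ i x, H.Adj (f x) (f (S.T i x))

/-! ### Targets -/

/-- `o` is a vertex within distance `κ` of `v` -/
def Close {V : Type} (H : SimpleGraph V) (κ : ℕ) (o : Option V) (v : V) : Prop :=
  ∃ z, o = some z ∧ H.edist z v ≤ κ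

open Classical in
/-- the vertices between `u` and `v` (empty if the distance is larger than `D`) -/
noncomputable def Lst {V : Type} [Fintype V] (H : SimpleGraph V) (D : ℕ) (u v : V) : Finset V :=
  Finset.univ.filter fun z => H.edist u z + H.edist z v = H.edist u v ∧ H.edist u v ≤ D

/-- the same for optional vertices -/
noncomputable def LstO {V : Type} [Fintype V] (H : SimpleGraph V) (D : ℕ) (y : Option V × Option V) :
    Finset (Option V) :=
  match y with
  | (some u, some v) => (Lst H D u v).map Function.Embedding.some
  | _ => ∅

/-! ### Bernoulli shifts -/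

/-- the fair coin -/
noncomputable def coin : Measure Bool := (2 : ENNReal)⁻¹ • (Measure.dirac true + Measure.dirac false)

instance : IsProbabilityMeasure coin := ⟨by
  have h : (Measure.dirac true + Measure.dirac false : Measure Bool) Set.univ = 2 := by
    rw [Measure.add_apply]
    simp only [measure_univ]
    norm_num
  rw [coin, Measure.smul_apply, h, smul_eq_mul]
  exact ENNReal.inv_mul_cancel (by norm_num) (by norm_num)⟩

/-- fair coin tosses indexed by `A` -/
noncomputable def bern (A : Type) : Measure (A → Bool) := Measure.infinitePi (fun _ => coin)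

instance (A : Type) : IsProbabilityMeasure (bern A) := by unfold bern; infer_instance

/-- `Φ` depends only on the coordinates in `D` -/
def DepOn {A α : Type} (D : Set A) (Φ : (A → Bool) → α) : Prop :=
  ∀ ω ω' : A → Bool, (∀ x ∈ D, ω x = ω' x) → Φ ω = Φ ω'

end Pool.Agent.Helper23.GR
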